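import Mathlib

set_option autoImplicit false

namespace Pool.Agent.Lib_MP_f63283_co

open Finset

/-- Recursive threshold for the box lemma (first argument: number of rows). -/
def F : ℕ → ℕ → ℕ
  | 0, 0 => 0
  | 0, _ + 1 => 1
  | _ + 1, 0 => 0
  | m + 1, d + 1 => F m (d + 1) + 3 * F m d

/-- `W` contains a full combinatorial box on `d` rows. -/
def HasBox (d : ℕ) {m : ℕ} (W : Finset (Fin m → Fin 3)) : Prop :=
  ∃ (r : Fin d → Fin m) (a b : Fin d → Fin 3), (∀ k, a k < b k) ∧
    ∀ ε : Fin d → Bool, ∃ w ∈ W, ∀ k, w (r k) = if ε k then a k else b k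

/-- Slice of `W` at first coordinate `a`. -/
def slice {m : ℕ} (W : Finset (Fin (m + 1) → Fin 3)) (a : Fin 3) : Finset (Fin m → Fin 3) :=
  univ.filter (fun t : Fin m → Fin 3 => (Fin.cons a t : Fin (m + 1) → Fin 3) ∈ W)

theorem mem_slice {m : ℕ} (W : Finset (Fin (m + 1) → Fin 3)) (a : Fin 3) (t : Fin m → Fin 3) :
    t ∈ slice W a ↔ (Fin.cons a t : Fin (m + 1) → Fin 3) ∈ W := by
  simp [slice]

theorem card_slices {m : ℕ} (W : Finset (Fin (m + 1) → Fin 3)) :
    W.card = ∑ a : Fin 3, (slice W a).card := by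
  rw [Finset.card_eq_sum_card_fiberwise (f := fun w => w 0) (t := univ) (by simp)]
  refine Finset.sum_congr rfl ?_
  intro a _
  refine Finset.card_bij' (fun w _ => Fin.tail w) (fun t _ => Fin.cons a t) ?_ ?_ ?_ ?_
  · intro w hw
    rw [mem_filter] at hw
    rw [mem_slice]
    have : (Fin.cons a (Fin.tail w) : Fin (m + 1) → Fin 3) = w := by
      rw [← hw.2]; exact Fin.cons_self_tail w
    rw [this]; exact hw.1
  · intro t ht
    rw [mem_slice] at ht
    rw [mem_filter]
    exact ⟨ht, by simp⟩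
  · intro w hw
    rw [mem_filter] at hw
    rw [← hw.2]; exact Fin.cons_self_tail w
  · intro t ht
    exact Fin.tail_cons _ _

theorem card_incl_excl {α : Type*} [DecidableEq α] (A B C : Finset α) :
    A.card + B.card + C.card ≤
      (A ∪ B ∪ C).card + (A ∩ B).card + (A ∩ C).card + (B ∩ C).card := by
  have h1 := Finset.card_union_add_card_inter A B
  have h2 := Finset.card_union_add_card_inter (A ∪ B) C
  have h3 : ((A ∪ B) ∩ C).card ≤ (A ∩ C).card + (B ∩ C).card := by
    rw [Finset.union_inter_distrib_right]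
    exact Finset.card_union_le _ _
  omega

theorem hasBox_cons {m d : ℕ} (W : Finset (Fin (m + 1) → Fin 3)) (a b : Fin 3) (hab : a < b)
    (h : HasBox d (slice W a ∩ slice W b)) : HasBox (d + 1) W := by
  obtain ⟨r, a', b', hlt, hbox⟩ := h
  refine ⟨Fin.cons 0 (fun k => (r k).succ), Fin.cons a a', Fin.cons b b', ?_, ?_⟩
  · intro k
    refine Fin.cases ?_ ?_ k
    · simpa using hab
    · intro k; simpa using hlt k
  · intro ε
    obtain ⟨t, ht, hk⟩ := hbox (fun k => ε k.succ)
    rw [mem_inter, mem_slice, mem_slice] at ht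
    by_cases h0 : ε 0 = true
    · refine ⟨Fin.cons a t, ht.1, ?_⟩
      intro k
      refine Fin.cases ?_ ?_ k
      · simp [h0]
      · intro k; simpa using hk k
    · refine ⟨Fin.cons b t, ht.2, ?_⟩
      intro k
      refine Fin.cases ?_ ?_ k
      · simp [h0]
      · intro k; simpa using hk k

theorem hasBox_union {m d : ℕ} (W : Finset (Fin (m + 1) → Fin 3))
    (h : HasBox d (slice W 0 ∪ slice W 1 ∪ slice W 2)) : HasBox d W := by
  obtain ⟨r, a', b', hlt, hbox⟩ := h
  refine ⟨fun k => (r k).succ, a', b', hlt, ?_⟩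
  intro ε
  obtain ⟨t, ht, hk⟩ := hbox ε
  have : ∃ a : Fin 3, (Fin.cons a t : Fin (m + 1) → Fin 3) ∈ W := by
    simp only [mem_union, mem_slice] at ht
    rcases ht with (h | h) | h
    · exact ⟨0, h⟩
    · exact ⟨1, h⟩
    · exact ⟨2, h⟩
  obtain ⟨a, ha⟩ := this
  exact ⟨_, ha, fun k => by simpa using hk k⟩

theorem hasBox_of_card (m : ℕ) : ∀ (d : ℕ) (W : Finset (Fin m → Fin 3)),
    F m d < W.card → HasBox d W := by
  induction m with
  | zero =>
    intro d W hW
    cases d with
    | zero =>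
      have : W.Nonempty := by
        rw [← Finset.card_pos]; omega
      obtain ⟨w, hw⟩ := this
      exact ⟨Fin.elim0, Fin.elim0, Fin.elim0, fun k => k.elim0, fun ε => ⟨w, hw, fun k => k.elim0⟩⟩
    | succ d =>
      exfalso
      have h1 : W.card ≤ Fintype.card (Fin 0 → Fin 3) := Finset.card_le_univ W
      simp [F] at h1 hW
      omega
  | succ m ih =>
    intro d W hW
    cases d with
    | zero =>
      have : W.Nonempty := by
        rw [← Finset.card_pos]; omega
      obtain ⟨w, hw⟩ := this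
      exact ⟨Fin.elim0, Fin.elim0, Fin.elim0, fun k => k.elim0, fun ε => ⟨w, hw, fun k => k.elim0⟩⟩
    | succ d =>
      by_contra hno
      have h0 : ¬ HasBox (d + 1) (slice W 0 ∪ slice W 1 ∪ slice W 2) :=
        fun h => hno (hasBox_union W h)
      have h1 : ¬ HasBox d (slice W 0 ∩ slice W 1) :=
        fun h => hno (hasBox_cons W 0 1 (by decide) h)
      have h2 : ¬ HasBox d (slice W 0 ∩ slice W 2) :=
        fun h => hno (hasBox_cons W 0 2 (by decide) h)
      have h3 : ¬ HasBox d (slice W 1 ∩ slice W 2) :=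
        fun h => hno (hasBox_cons W 1 2 (by decide) h)
      have g0 := mt (ih (d + 1) _) h0
      have g1 := mt (ih d _) h1
      have g2 := mt (ih d _) h2
      have g3 := mt (ih d _) h3
      have hc := card_slices W
      rw [Fin.sum_univ_three] at hc
      have hi := card_incl_excl (slice W 0) (slice W 1) (slice W 2)
      simp only [F] at hW
      omega

theorem F_one (m : ℕ) : F m 1 = 1 := by
  induction m with
  | zero => rfl
  | succ m ih =>
    have : F m 0 = 0 := by cases m <;> rfl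
    simp [F, ih, this]

theorem F_two (m : ℕ) : F m 2 = 1 + 3 * m := by
  induction m with
  | zero => rfl
  | succ m ih =>
    have h : F (m + 1) 2 = F m 2 + 3 * F m 1 := rfl
    rw [h, ih, F_one]; ring

theorem F_three_le (m : ℕ) (hm : 1 ≤ m) : F m 3 ≤ 5 * m ^ 2 := by
  induction m, hm using Nat.le_induction with
  | base => decide
  | succ m hm ih =>
    have h : F (m + 1) 3 = F m 3 + 3 * F m 2 := rfl
    rw [h, F_two]
    nlinarith

/-- `3 x 3` determinant of explicit integers. -/
def det3 (x : Fin 3 → Fin 3 → ℤ) : ℤ :=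
  x 0 0 * (x 1 1 * x 2 2 - x 1 2 * x 2 1) - x 0 1 * (x 1 0 * x 2 2 - x 1 2 * x 2 0)
    + x 0 2 * (x 1 0 * x 2 1 - x 1 1 * x 2 0)

/-- The eight sign triples used. -/
def triples : List (Fin 3 → Fin 3 → Bool) :=
  let t := true
  let f := false
  [![![f, f, f], ![t, f, t], ![t, t, f]],
   ![![f, f, t], ![t, f, f], ![t, t, t]],
   ![![f, t, t], ![t, f, t], ![t, t, f]],
   ![![f, f, t], ![f, t, f], ![t, f, f]],
   ![![f, f, f], ![f, t, t], ![t, t, f]],
   ![![f, f, t], ![f, t, f], ![t, t, t]],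
   ![![f, f, f], ![f, t, t], ![t, f, t]],
   ![![f, t, f], ![t, f, f], ![t, t, t]]]

theorem triple_aux : ∀ p0 p1 p2 a0 a1 a2 b0 b1 b2 : Fin 3, a0 < b0 → a1 < b1 → a2 < b2 →
    (triples.any fun ε => decide (2 ≤ (det3 (fun k l =>
      ((if ε l k then (![a0, a1, a2] : Fin 3 → Fin 3) k else (![b0, b1, b2] : Fin 3 → Fin 3) k :
        Fin 3) : ℕ) - ((![p0, p1, p2] : Fin 3 → Fin 3) k : ℕ))).natAbs)) = true := by
  decide +kernel

end Pool.Agent.Lib_MP_f63283_co
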