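import Pool.Agent.Lib_MP_f63283_co.Box

set_option autoImplicit false

namespace Pool.Agent.Lib_MP_f63283_co

open Finset

theorem triple_exists (p a b : Fin 3 → Fin 3) (h : ∀ k, a k < b k) :
    ∃ ε : Fin 3 → Fin 3 → Bool,
      2 ≤ |(Matrix.of fun k l : Fin 3 =>
        (((if ε l k then a k else b k : Fin 3) : ℕ) : ℤ) - ((p k : ℕ) : ℤ)).det| := by
  have hd := triple_aux (p 0) (p 1) (p 2) (a 0) (a 1) (a 2) (b 0) (b 1) (b 2) (h 0) (h 1) (h 2)
  rw [List.any_eq_true] at hd
  obtain ⟨ε, _, hε⟩ := hd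
  refine ⟨ε, ?_⟩
  have hε' := of_decide_eq_true hε
  have e1 : (![p 0, p 1, p 2] : Fin 3 → Fin 3) = p := by
    funext k; fin_cases k <;> rfl
  have e2 : (![a 0, a 1, a 2] : Fin 3 → Fin 3) = a := by
    funext k; fin_cases k <;> rfl
  have e3 : (![b 0, b 1, b 2] : Fin 3 → Fin 3) = b := by
    funext k; fin_cases k <;> rfl
  rw [e1, e2, e3] at hε'
  have hdet : (Matrix.of fun k l : Fin 3 =>
        (((if ε l k then a k else b k : Fin 3) : ℕ) : ℤ) - ((p k : ℕ) : ℤ)).det
      = det3 (fun k l => (((if ε l k then a k else b k : Fin 3) : ℕ) : ℤ) - ((p k : ℕ) : ℤ)) := by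
    rw [Matrix.det_fin_three]
    simp only [Matrix.of_apply, det3]
    ring
  rw [hdet]
  have : (2 : ℤ) ≤ ((det3 (fun k l => (((if ε l k then a k else b k : Fin 3) : ℕ) : ℤ)
      - ((p k : ℕ) : ℤ))).natAbs : ℤ) := by exact_mod_cast hε'
  rwa [Int.natCast_natAbs] at this

/-- Iterating the box lemma `r` times gives a common base point `p` and `3 r` further points
whose differences from `p` have a `3r x 3r` minor of absolute value at least `2 ^ r`. -/
theorem iter {m : ℕ} (r : ℕ) : ∀ W : Finset (Fin m → Fin 3),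
    27 ^ r * (F m 3 + 1) ≤ W.card →
    ∃ (ι : Type) (_ : Fintype ι) (_ : DecidableEq ι) (p : Fin m → Fin 3) (ρ : ι → Fin m)
      (κ : ι → (Fin m → Fin 3)), Fintype.card ι = 3 * r ∧ p ∈ W ∧ (∀ j, κ j ∈ W) ∧
      2 ^ r ≤ |(Matrix.of fun i j : ι => ((κ j (ρ i) : ℕ) : ℤ) - ((p (ρ i) : ℕ) : ℤ)).det| := by
  induction r with
  | zero =>
    intro W hW
    have hne : W.Nonempty := by
      rw [← Finset.card_pos]; omega
    obtain ⟨w, hw⟩ := hne
    refine ⟨Fin 0, inferInstance, inferInstance, w, Fin.elim0, Fin.elim0, by simp, hw,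
      fun j => j.elim0, by simp⟩
  | succ r ih =>
    intro W hW
    have hpos : 0 < 27 ^ r := by positivity
    have hlarge : F m 3 < W.card := by
      have : 27 ^ (r + 1) * (F m 3 + 1) ≥ 1 * (F m 3 + 1) := by
        apply Nat.mul_le_mul_right
        exact Nat.one_le_pow _ _ (by norm_num)
      omega
    obtain ⟨r₀, a, b, hab, hbox⟩ := hasBox_of_card m 3 W hlarge
    -- pigeonhole
    have hpig : ∃ y ∈ (univ : Finset (Fin 3 → Fin 3)),
        27 ^ r * (F m 3 + 1) ≤ (W.filter (fun w => (fun k => w (r₀ k)) = y)).card := by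
      apply Finset.exists_le_card_fiber_of_mul_le_card_of_maps_to (fun w _ => mem_univ _)
        univ_nonempty
      have : (univ : Finset (Fin 3 → Fin 3)).card = 27 := by simp
      rw [this]
      calc 27 * (27 ^ r * (F m 3 + 1)) = 27 ^ (r + 1) * (F m 3 + 1) := by ring
        _ ≤ W.card := hW
    obtain ⟨α, _, hα⟩ := hpig
    obtain ⟨ι, i1, i2, p, ρ, κ, hcard, hp, hκ, hdet⟩ := ih _ hα
    obtain ⟨ε, hε⟩ := triple_exists α a b hab
    choose q hqW hq using fun l => hbox (ε l)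
    have hpW := (mem_filter.mp hp).1
    have hpα : ∀ k, p (r₀ k) = α k := fun k => congrFun (mem_filter.mp hp).2 k
    have hκW : ∀ j, κ j ∈ W := fun j => (mem_filter.mp (hκ j)).1
    have hκα : ∀ j k, κ j (r₀ k) = α k := fun j k => congrFun (mem_filter.mp (hκ j)).2 k
    refine ⟨Fin 3 ⊕ ι, inferInstance, inferInstance, p, Sum.elim r₀ ρ, Sum.elim q κ, ?_, hpW, ?_,
      ?_⟩
    · simp [hcard]; ring
    · rintro (j | j)
      · exact hqW j
      · exact hκW j
    · have hM : (Matrix.of fun i j : Fin 3 ⊕ ι =>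
          ((((Sum.elim q κ : Fin 3 ⊕ ι → (Fin m → Fin 3)) j)
            ((Sum.elim r₀ ρ : Fin 3 ⊕ ι → Fin m) i) : ℕ) : ℤ)
            - ((p ((Sum.elim r₀ ρ : Fin 3 ⊕ ι → Fin m) i) : ℕ) : ℤ))
          = Matrix.fromBlocks
            (Matrix.of fun k l : Fin 3 =>
              (((if ε l k then a k else b k : Fin 3) : ℕ) : ℤ) - ((α k : ℕ) : ℤ)) 0
            (Matrix.of fun (i : ι) (l : Fin 3) => ((q l (ρ i) : ℕ) : ℤ) - ((p (ρ i) : ℕ) : ℤ))
            (Matrix.of fun i j : ι => ((κ j (ρ i) : ℕ) : ℤ) - ((p (ρ i) : ℕ) : ℤ)) := by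
        ext i j
        rcases i with i | i <;> rcases j with j | j
        · simp only [Matrix.of_apply, Sum.elim_inl, Matrix.fromBlocks_apply₁₁]
          rw [hq j i, hpα]
        · simp only [Matrix.of_apply, Sum.elim_inl, Sum.elim_inr, Matrix.fromBlocks_apply₁₂,
            Matrix.zero_apply]
          rw [hκα, hpα]; simp
        · simp
        · simp
      rw [hM, Matrix.det_fromBlocks_zero₁₂, abs_mul]
      calc (2 : ℤ) ^ (r + 1) = 2 * 2 ^ r := by ring
        _ ≤ _ := by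
          apply mul_le_mul hε hdet (by positivity) (by positivity)

end Pool.Agent.Lib_MP_f63283_co
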