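import Mathlib

set_option autoImplicit false

namespace Pool.Agent.Lib_MP_f63283_co

open Finset Matrix

/-- The matrix obtained from `M` by subtracting `v` from all rows in `s`. -/
def subRows {ι : Type*} [DecidableEq ι] (M : Matrix ι ι ℚ) (v : ι → ℚ) (s : Finset ι) :
    Matrix ι ι ℚ :=
  Matrix.of fun i j => if i ∈ s then M i j - v j else M i j

theorem det_subRows {ι : Type*} [Fintype ι] [DecidableEq ι] (M : Matrix ι ι ℚ) (v : ι → ℚ)
    (s : Finset ι) :
    (subRows M v s).det = M.det - ∑ i ∈ s, (M.updateRow i v).det := by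
  induction s using Finset.induction_on with
  | empty =>
    have : subRows M v ∅ = M := by
      ext i j; simp [subRows]
    simp [this]
  | insert k s hk ih =>
    rw [Finset.sum_insert hk]
    have h1 : subRows M v (insert k s) = (subRows M v s).updateRow k (M k - v) := by
      ext i j
      by_cases hik : i = k
      · subst hik; simp [subRows]
      · simp [subRows, hik]
    have h2 : ((subRows M v s).updateRow k (M k - v)).det
        = ((subRows M v s).updateRow k (M k)).det
          - ((subRows M v s).updateRow k v).det := by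
      have h3 := Matrix.det_updateRow_add (subRows M v s) k (M k - v) v
      rw [sub_add_cancel] at h3
      rw [h3]; ring
    have h4 : (subRows M v s).updateRow k (M k) = subRows M v s := by
      ext i j
      by_cases hik : i = k
      · subst hik; simp [subRows, hk]
      · simp [subRows, hik]
    have h5 : ((subRows M v s).updateRow k v).det = (M.updateRow k v).det := by
      apply Matrix.det_eq_of_forall_row_eq_smul_add_const
        (fun i => if i ∈ s then (-1 : ℚ) else 0) k (by simp [hk])
      intro i j
      by_cases hik : i = k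
      · subst hik; simp [hk]
      · by_cases his : i ∈ s
        · simp [subRows, hik, his]; ring
        · simp [subRows, hik, his]
    rw [h1, h2, h4, h5, ih]
    ring

/-- If all minors of `S` are bounded by one then the minors of differences of columns of `S`
of size `t` are bounded by `t + 1`. -/
theorem det_diff_le {m n : Type*} (S : Matrix m n ℚ)
    {ι : Type} [Fintype ι] [DecidableEq ι]
    (hS : ∀ (ρ : ι → m) (c : ι → n), |(S.submatrix ρ c).det| ≤ 1)
    (ρ : ι → m) (κ : ι → n) (p : n) :
    |(Matrix.of fun i j : ι => S (ρ i) (κ j) - S (ρ i) p).det| ≤ (Fintype.card ι : ℚ) + 1 := by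
  set M : Matrix ι ι ℚ := (S.submatrix ρ κ)ᵀ with hM
  set v : ι → ℚ := fun i => S (ρ i) p with hv
  have h1 : (Matrix.of fun i j : ι => S (ρ i) (κ j) - S (ρ i) p)ᵀ = subRows M v univ := by
    ext i j; simp [subRows, hM, hv]
  rw [← Matrix.det_transpose, h1, det_subRows]
  have h2 : |M.det| ≤ 1 := by
    rw [hM, Matrix.det_transpose]; exact hS ρ κ
  have h3 : ∀ i, |(M.updateRow i v).det| ≤ 1 := by
    intro i
    have : M.updateRow i v = (S.submatrix ρ (Function.update κ i p))ᵀ := by
      ext a b
      by_cases hai : a = i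
      · subst hai; simp [hv]
      · simp [hai, hM]
    rw [this, Matrix.det_transpose]
    exact hS _ _
  calc |M.det - ∑ i, (M.updateRow i v).det|
      ≤ |M.det| + |∑ i, (M.updateRow i v).det| := abs_sub _ _
    _ ≤ 1 + ∑ i : ι, |(M.updateRow i v).det| :=
        add_le_add h2 (Finset.abs_sum_le_sum_abs _ _)
    _ ≤ 1 + ∑ _i : ι, (1 : ℚ) := by
        gcongr with i; exact h3 i
    _ = (Fintype.card ι : ℚ) + 1 := by simp; ring

/-- If `S` contains an identity submatrix and all full minors of `S` are bounded by one then all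
minors are bounded by one. -/
theorem minor_le {m n : Type*} [Fintype m] [DecidableEq m] (S : Matrix m n ℚ) (s₀ : m → n)
    (h₀ : S.submatrix id s₀ = 1) (hfull : ∀ s : m → n, |(S.submatrix id s).det| ≤ 1)
    {ι : Type} [Fintype ι] [DecidableEq ι] (ρ : ι → m) (c : ι → n) :
    |(S.submatrix ρ c).det| ≤ 1 := by
  classical
  by_cases hρ : Function.Injective ρ
  · let e : ι ⊕ ((Set.range ρ)ᶜ : Set m) ≃ m :=
      (Equiv.sumCongr (Equiv.ofInjective ρ hρ) (Equiv.refl _)).trans
        (Equiv.Set.sumCompl (Set.range ρ))
    have he1 : ∀ i, e (Sum.inl i) = ρ i := fun i => by simp [e]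
    have he2 : ∀ i : ((Set.range ρ)ᶜ : Set m), e (Sum.inr i) = i := fun i => by simp [e]
    let g : ι ⊕ ((Set.range ρ)ᶜ : Set m) → n :=
      Sum.elim c (fun j : ((Set.range ρ)ᶜ : Set m) => s₀ j.1)
    let s : m → n := fun i => g (e.symm i)
    have hs := hfull s
    rw [← Matrix.det_submatrix_equiv_self e] at hs
    have hb : (S.submatrix id s).submatrix e e
        = Matrix.fromBlocks (S.submatrix ρ c) 0
          (Matrix.of fun (i : ((Set.range ρ)ᶜ : Set m)) (j : ι) => S i (c j)) 1 := by
      have key : ∀ i j, S i (s₀ j) = (1 : Matrix m m ℚ) i j := fun i j => by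
        rw [← h₀]; rfl
      have hs1 : ∀ j : ι, s (e (Sum.inl j)) = c j := fun j => by simp [s, g]
      have hs2 : ∀ j : ((Set.range ρ)ᶜ : Set m), s (e (Sum.inr j)) = s₀ j.1 := fun j => by
        simp [s, g]
      ext i j
      rcases i with i | i <;> rcases j with j | j
      · change S (e (Sum.inl i)) (s (e (Sum.inl j))) = S (ρ i) (c j)
        rw [hs1, he1]
      · change S (e (Sum.inl i)) (s (e (Sum.inr j))) = 0
        rw [hs2, he1, key, Matrix.one_apply_ne]
        intro h
        exact j.2 ⟨i, h⟩
      · change S (e (Sum.inr i)) (s (e (Sum.inl j))) = S i (c j)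
        rw [hs1, he2]
      · change S (e (Sum.inr i)) (s (e (Sum.inr j))) =
          (1 : Matrix ((Set.range ρ)ᶜ : Set m) ((Set.range ρ)ᶜ : Set m) ℚ) i j
        rw [hs2, he2, key]
        by_cases hij : i = j
        · subst hij; simp
        · rw [Matrix.one_apply_ne hij, Matrix.one_apply_ne]
          exact fun h => hij (Subtype.ext h)
    rw [hb, Matrix.det_fromBlocks_zero₁₂, Matrix.det_one, mul_one] at hs
    exact hs
  · rw [Function.Injective] at hρ
    push Not at hρ
    obtain ⟨i, j, hij, hne⟩ := hρ
    have : (S.submatrix ρ c).det = 0 := by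
      apply Matrix.det_zero_of_row_eq hne
      funext k
      simp [hij]
    rw [this]; simp

/-- The index of the lattice spanned by the columns of `B` is `|det B|`. -/
theorem card_quot {m : ℕ} (B : Matrix (Fin m) (Fin m) ℤ) (hB : B.det ≠ 0) :
    Nat.card ((Fin m → ℤ) ⧸ LinearMap.range (Matrix.toLin' B)) = B.det.natAbs := by
  have hinj : Function.Injective (Matrix.toLin' B) := by
    have := Matrix.mulVec_injective_of_isUnit (A := B.map (Int.cast : ℤ → ℚ)) (by
      rw [Matrix.isUnit_iff_isUnit_det]
      have : (B.map (Int.cast : ℤ → ℚ)).det = ((B.det : ℤ) : ℚ) := by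
        rw [Int.cast_det]
      rw [this]
      exact isUnit_iff_ne_zero.mpr (by exact_mod_cast hB))
    intro x y hxy
    have h2 : (B.map (Int.cast : ℤ → ℚ)).mulVec (fun i => (x i : ℚ))
        = (B.map (Int.cast : ℤ → ℚ)).mulVec (fun i => (y i : ℚ)) := by
      funext i
      have h3 := congrFun hxy i
      simp only [Matrix.toLin'_apply, Matrix.mulVec, dotProduct] at h3
      simp only [Matrix.mulVec, dotProduct, Matrix.map_apply]
      exact_mod_cast h3
    have h4 := this h2
    funext i
    have h5 := congrFun h4 i
    simpa using h5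
  let e := LinearEquiv.ofInjective (Matrix.toLin' B) hinj
  have h := Submodule.natAbs_det_equiv (LinearMap.range (Matrix.toLin' B)) e
  rw [← h]
  have h2 : ((LinearMap.range (Matrix.toLin' B)).subtype ∘ₗ
      AddMonoidHom.toIntLinearMap (e : (Fin m → ℤ) →+ LinearMap.range (Matrix.toLin' B)))
      = Matrix.toLin' B := by
    ext x
    simp [e]
  rw [h2, LinearMap.det_toLin']

end Pool.Agent.Lib_MP_f63283_co
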