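import Pool.Agent.Lib_MP_f63283_co.Iter
import Pool.Agent.Lib_MP_f63283_co.LinAlg

set_option autoImplicit false

namespace Pool.Agent.Lib_MP_f63283_co

open Finset Matrix

/-- Bound for one coset: a finite set `J` of columns of `S` (all of whose minors are at most one
in absolute value) with pairwise integral differences has at most `27^4 * (F m 3 + 1)` elements. -/
theorem coset_bound {m n : ℕ} (S : Matrix (Fin m) (Fin n) ℚ)
    (hS : ∀ (ι : Type) [Fintype ι] [DecidableEq ι] (ρ : ι → Fin m) (c : ι → Fin n),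
      |(S.submatrix ρ c).det| ≤ 1)
    (J : Finset (Fin n)) (z : Fin n → Fin m → ℤ) (j₀ : Fin n)
    (hz : ∀ j ∈ J, ∀ i, S i j - S i j₀ = (z j i : ℚ))
    (hinj : ∀ j ∈ J, ∀ j' ∈ J, z j = z j' → j = j') :
    J.card < 27 ^ 4 * (F m 3 + 1) := by
  classical
  by_contra hcon
  push Not at hcon
  have hpos : 0 < J.card := lt_of_lt_of_le (by positivity) hcon
  have hne : J.Nonempty := Finset.card_pos.mp hpos
  have hent : ∀ i j, |S i j| ≤ 1 := by
    intro i j
    have h := hS (Fin 1) (fun _ => i) (fun _ => j)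
    simpa using h
  -- minimum of each row
  have hmin : ∀ i, ∃ j ∈ J, ∀ j' ∈ J, z j i ≤ z j' i := fun i =>
    Finset.exists_min_image J (fun j => z j i) hne
  choose jm hjm hjmin using hmin
  have hrange : ∀ i, ∀ j ∈ J, 0 ≤ z j i - z (jm i) i ∧ z j i - z (jm i) i ≤ 2 := by
    intro i j hj
    refine ⟨by have := hjmin i j hj; omega, ?_⟩
    have h1 := hz j hj i
    have h2 := hz (jm i) (hjm i) i
    have h3 : ((z j i - z (jm i) i : ℤ) : ℚ) = S i j - S i (jm i) := by
      push_cast; rw [← h1, ← h2]; ring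
    have h4 : ((z j i - z (jm i) i : ℤ) : ℚ) ≤ 2 := by
      rw [h3]
      have a1 := abs_le.mp (hent i j)
      have a2 := abs_le.mp (hent i (jm i))
      linarith [a1.2, a2.1]
    exact_mod_cast h4
  let w : Fin n → Fin m → Fin 3 := fun j i =>
    if h : (z j i - z (jm i) i).toNat < 3 then ⟨(z j i - z (jm i) i).toNat, h⟩ else 0
  have hw : ∀ j ∈ J, ∀ i, ((w j i : ℕ) : ℤ) = z j i - z (jm i) i := by
    intro j hj i
    obtain ⟨h1, h2⟩ := hrange i j hj
    have h3 : (z j i - z (jm i) i).toNat < 3 := by omega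
    simp only [w, h3, dif_pos]
    exact Int.toNat_of_nonneg h1
  have hwinj : Set.InjOn w J := by
    intro j hj j' hj' h
    apply hinj j hj j' hj'
    funext i
    have h1 := hw j hj i
    have h2 := hw j' hj' i
    rw [h] at h1
    omega
  have hcard : (J.image w).card = J.card := Finset.card_image_of_injOn hwinj
  obtain ⟨ι, i1, i2, p, ρ, κ, hι, hp, hκ, hdet⟩ := iter (m := m) 4 (J.image w) (by
    rw [hcard]; exact hcon)
  obtain ⟨jp, hjp, rfl⟩ := Finset.mem_image.mp hp
  have hκ' : ∀ i, ∃ j ∈ J, w j = κ i := fun i => Finset.mem_image.mp (hκ i)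
  choose jκ hjκ hjκw using hκ'
  have hD := det_diff_le S (fun ρ c => hS ι ρ c) ρ jκ jp
  have hcast : (Matrix.of fun i j : ι => S (ρ i) (jκ j) - S (ρ i) jp).det
      = (((Matrix.of fun i j : ι => ((κ j (ρ i) : ℕ) : ℤ) - ((w jp (ρ i) : ℕ) : ℤ)).det : ℤ) : ℚ) := by
    rw [Int.cast_det]
    congr 1
    ext i j
    simp only [Matrix.of_apply, Matrix.map_apply]
    rw [← hjκw j, hw (jκ j) (hjκ j), hw jp hjp]
    have h1 := hz (jκ j) (hjκ j) (ρ i)
    have h2 := hz jp hjp (ρ i)
    push_cast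
    linarith
  rw [hcast, hι] at hD
  have h16 : (16 : ℚ) ≤ |(((Matrix.of fun i j : ι => ((κ j (ρ i) : ℕ) : ℤ) -
      ((w jp (ρ i) : ℕ) : ℤ)).det : ℤ) : ℚ)| := by
    have : ((2 ^ 4 : ℤ) : ℚ) ≤ ((|(Matrix.of fun i j : ι => ((κ j (ρ i) : ℕ) : ℤ) -
      ((w jp (ρ i) : ℕ) : ℤ)).det| : ℤ) : ℚ) := by
      exact_mod_cast hdet
    rw [Int.cast_abs] at this
    norm_num at this
    exact this
  norm_num at hD
  linarith

theorem main_bound (Δ m n : ℕ) (hΔ : 1 ≤ Δ) (hm : 1 ≤ m) (A : Matrix (Fin m) (Fin n) ℤ)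
    (hinj : Function.Injective A.transpose)
    (hA : ∀ s : Fin m → Fin n, |(A.submatrix id s).det| ≤ (Δ : ℤ))
    (hex : ∃ s : Fin m → Fin n, |(A.submatrix id s).det| = (Δ : ℤ)) :
    n ≤ 27 ^ 4 * 6 * m ^ 2 * Δ := by
  classical
  obtain ⟨s₀, hs₀⟩ := hex
  set B : Matrix (Fin m) (Fin m) ℤ := A.submatrix id s₀ with hBdef
  have hBne : B.det ≠ 0 := by
    intro h
    rw [h] at hs₀
    simp at hs₀
    omega
  have hBnat : B.det.natAbs = Δ := by
    have h := Int.natCast_natAbs B.det
    rw [hs₀] at h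
    exact_mod_cast h
  set Aq : Matrix (Fin m) (Fin n) ℚ := A.map (Int.cast : ℤ → ℚ) with hAq
  set Bq : Matrix (Fin m) (Fin m) ℚ := B.map (Int.cast : ℤ → ℚ) with hBq
  have hBqdet : Bq.det = ((B.det : ℤ) : ℚ) := by
    rw [Int.cast_det]
  have hBqunit : IsUnit Bq.det := by
    rw [hBqdet]; exact isUnit_iff_ne_zero.mpr (by exact_mod_cast hBne)
  set S : Matrix (Fin m) (Fin n) ℚ := Bq⁻¹ * Aq with hSdef
  have hsub : ∀ s : Fin m → Fin n, S.submatrix id s = Bq⁻¹ * Aq.submatrix id s := by
    intro s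
    rw [hSdef]
    ext i j
    simp [Matrix.mul_apply]
  have h0 : S.submatrix id s₀ = 1 := by
    rw [hsub]
    have : Aq.submatrix id s₀ = Bq := by
      ext i j; simp [hAq, hBq, hBdef]
    rw [this, Matrix.nonsing_inv_mul _ hBqunit]
  have hΔq : (0 : ℚ) < (Δ : ℚ) := by exact_mod_cast hΔ
  have habsB : |Bq.det| = (Δ : ℚ) := by
    rw [hBqdet, ← Int.cast_abs, hs₀]; simp
  have hfull : ∀ s : Fin m → Fin n, |(S.submatrix id s).det| ≤ 1 := by
    intro s
    rw [hsub, Matrix.det_mul, abs_mul, Matrix.det_nonsing_inv, Ring.inverse_eq_inv', abs_inv,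
      habsB]
    have h1 : |(Aq.submatrix id s).det| ≤ (Δ : ℚ) := by
      have h2 : (Aq.submatrix id s).det = (((A.submatrix id s).det : ℤ) : ℚ) := by
        rw [Int.cast_det]; rfl
      rw [h2, ← Int.cast_abs]
      exact_mod_cast hA s
    rw [inv_mul_le_iff₀ hΔq]
    linarith
  have hS : ∀ (ι : Type) [Fintype ι] [DecidableEq ι] (ρ : ι → Fin m) (c : ι → Fin n),
      |(S.submatrix ρ c).det| ≤ 1 := by
    intro ι _ _ ρ c
    exact minor_le S s₀ h0 hfull ρ c
  -- the classes
  have hquot := card_quot B hBne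
  rw [hBnat] at hquot
  let Q := (Fin m → ℤ) ⧸ LinearMap.range (Matrix.toLin' B)
  haveI : Finite Q := Nat.finite_of_card_ne_zero (by
    change Nat.card ((Fin m → ℤ) ⧸ LinearMap.range (Matrix.toLin' B)) ≠ 0
    rw [hquot]; omega)
  haveI : Fintype Q := Fintype.ofFinite Q
  have hQcard : Fintype.card Q = Δ := by
    rw [← Nat.card_eq_fintype_card]; exact hquot
  let cl : Fin n → Q := fun j => Submodule.Quotient.mk (A.transpose j)
  have hfib : ∀ q : Q, ((univ : Finset (Fin n)).filter (fun j => cl j = q)).card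
      ≤ 27 ^ 4 * (F m 3 + 1) := by
    intro q
    by_cases hemp : ((univ : Finset (Fin n)).filter (fun j => cl j = q)).Nonempty
    · obtain ⟨j₀, hj₀⟩ := hemp
      have hj₀' : cl j₀ = q := (mem_filter.mp hj₀).2
      have hex : ∀ j, ∃ z : Fin m → ℤ, cl j = q →
          A.transpose j - A.transpose j₀ = B.mulVec z := by
        intro j
        by_cases hj : cl j = q
        · have h1 : cl j = cl j₀ := by rw [hj, hj₀']
          have h2 := (Submodule.Quotient.eq _).mp h1
          obtain ⟨z, hz⟩ := h2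
          exact ⟨z, fun _ => by rw [← hz]; simp⟩
        · exact ⟨0, fun h => absurd h hj⟩
      choose z hz using hex
      apply le_of_lt
      apply coset_bound S hS _ z j₀
      · intro j hj i
        have hjq : cl j = q := (mem_filter.mp hj).2
        have h1 := hz j hjq
        have h2 : (fun k => Aq k j - Aq k j₀) = Bq.mulVec (fun k => (z j k : ℚ)) := by
          funext k
          have h3 := congrFun h1 k
          simp only [Pi.sub_apply, Matrix.transpose_apply, Matrix.mulVec, dotProduct] at h3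
          simp only [hAq, hBq, Matrix.map_apply, Matrix.mulVec, dotProduct]
          exact_mod_cast h3
        have h4 : (fun i => S i j - S i j₀) = fun k => (z j k : ℚ) := by
          have h5 : (fun i => S i j - S i j₀) = Bq⁻¹.mulVec (fun k => Aq k j - Aq k j₀) := by
            funext i
            simp only [hSdef, Matrix.mul_apply, Matrix.mulVec, dotProduct, mul_sub,
              Finset.sum_sub_distrib]
          rw [h5, h2, Matrix.mulVec_mulVec, Matrix.nonsing_inv_mul _ hBqunit, Matrix.one_mulVec]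
        exact congrFun h4 i
      · intro j hj j' hj' hzz
        have hjq : cl j = q := (mem_filter.mp hj).2
        have hjq' : cl j' = q := (mem_filter.mp hj').2
        apply hinj
        have h1 := hz j hjq
        have h2 := hz j' hjq'
        rw [hzz, ← h2] at h1
        exact sub_left_injective h1
    · rw [Finset.not_nonempty_iff_eq_empty] at hemp
      rw [hemp]; simp
  have hsum : (univ : Finset (Fin n)).card
      ≤ (univ : Finset Q).card * (27 ^ 4 * (F m 3 + 1)) := by
    rw [mul_comm]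
    apply Finset.card_le_mul_card_image_of_maps_to (f := cl) (fun _ _ => mem_univ _)
    intro q _
    exact hfib q
  rw [Finset.card_univ, Finset.card_univ, hQcard, Fintype.card_fin] at hsum
  have hF := F_three_le m hm
  have hm2 : 1 ≤ m ^ 2 := Nat.one_le_pow _ _ hm
  calc n ≤ Δ * (27 ^ 4 * (F m 3 + 1)) := hsum
    _ ≤ Δ * (27 ^ 4 * (5 * m ^ 2 + m ^ 2)) := by gcongr
    _ = 27 ^ 4 * 6 * m ^ 2 * Δ := by ring

end Pool.Agent.Lib_MP_f63283_co
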